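import Pool.Agent.H23.PL.All

/-!
# Squares among the primitive parts of the Pell numbers have density zero (`MP_cd3997_nt`)
-/

set_option autoImplicit false

open Finset

namespace Pool.Agent.Results.MP_cd3997_nt.DensityZero

/-- `u` are the Pell numbers and `L` their primitive parts.  The set of the indices `r` for
which `L r` is a perfect square has natural density zero. -/
theorem result (u L : ℕ → ℕ) (h0 : u 0 = 0) (h1 : u 1 = 1)
    (h2 : ∀ r, u (r + 2) = 2 * u (r + 1) + u r)
    (hL : ∀ r, 0 < r → ∏ d ∈ r.divisors, L d = u r) :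
    Filter.Tendsto
      (fun x : ℕ => (((Icc 1 x).filter fun r => IsSquare (L r)).card : ℝ) / x)
      Filter.atTop (nhds 0) := by
  have hP : Pool.Agent.H23.PL.PellL u L := ⟨h0, h1, h2, hL⟩
  rw [Metric.tendsto_atTop]
  intro ε hε
  obtain ⟨X, hX⟩ := Pool.Agent.H23.PL.All.a_FIN u L hP (ε / 2) (by linarith)
  refine ⟨max X 1, fun x hx => ?_⟩
  have hx1 : X ≤ x := le_trans (le_max_left _ _) hx
  have hx2 : 1 ≤ x := le_trans (le_max_right _ _) hx
  have hxp : (0 : ℝ) < x := by exact_mod_cast hx2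
  have h := hX x hx1
  have hnn : (0 : ℝ) ≤ (((Icc 1 x).filter fun r => IsSquare (L r)).card : ℝ) / x :=
    div_nonneg (Nat.cast_nonneg _) hxp.le
  rw [Real.dist_eq, sub_zero, abs_of_nonneg hnn, div_lt_iff₀ hxp]
  have h' : ε / 2 * (x : ℝ) < ε * x := by
    apply mul_lt_mul_of_pos_right _ hxp
    linarith
  exact lt_of_le_of_lt h h'

end Pool.Agent.Results.MP_cd3997_nt.DensityZero
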