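import Pool.Agent.H28.PL.FinJ
import Pool.Agent.H28.PL.AllR
import Pool.Agent.H28.PL.Cat

/-!
# Prime multiples of the indices of squares (`MP_cd3997_nt`)
-/

set_option autoImplicit false

namespace Pool.Agent.Results.MP_cd3997_nt.PrimeMultiples

/-- `u` are the Pell numbers and `L` their primitive parts.  For a prime number `q`, neither
`L (7 q)` nor `L (30 q)` is a square, and if `L m` is a square, `1 < m ≤ q`, then `L (m q)` is
not. -/
theorem result (u L : ℕ → ℕ) (h0 : u 0 = 0) (h1 : u 1 = 1)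
    (h2 : ∀ r, u (r + 2) = 2 * u (r + 1) + u r)
    (hL : ∀ r, 0 < r → ∏ d ∈ r.divisors, L d = u r)
    (m q : ℕ) (hq : q.Prime) (hm : m = 7 ∨ m = 30 ∨ (1 < m ∧ m ≤ q ∧ IsSquare (L m))) :
    ¬ IsSquare (L (m * q)) :=
  Pool.Agent.H28.PL.GG_of Pool.Agent.H28.PL.AllR.r_MOB
    (Pool.Agent.H28.PL.AllR.r_G (Pool.Agent.H28.PL.pf_CAT Pool.Agent.H28.PL.pf_CAB)) L
    (Pool.Agent.H28.PL.pp_of u L h0 h1 h2 hL) m q hq hm

end Pool.Agent.Results.MP_cd3997_nt.PrimeMultiples
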