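import Pool.Agent.H28.PL.AllK

/-!
# A reciprocity obstruction for primitive parts of the Pell numbers (`MP_cd3997_nt`)
-/

set_option autoImplicit false

namespace Pool.Agent.Results.MP_cd3997_nt.Reciprocity

/-- `u` are the Pell numbers and `L` their primitive parts.  If `q` is an odd prime number with
Jacobi symbol `(q / L m) = -1`, then `L (m q ^ a)` is not a square. -/
theorem result (u L : ℕ → ℕ) (h0 : u 0 = 0) (h1 : u 1 = 1)
    (h2 : ∀ r, u (r + 2) = 2 * u (r + 1) + u r)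
    (hL : ∀ r, 0 < r → ∏ d ∈ r.divisors, L d = u r)
    (m q a : ℕ) (hm : 0 < m) (hc : ∀ c, m ≠ 2 ^ c) (hp : ∀ p i, p.Prime → m ≠ 2 * p ^ i)
    (hq : q.Prime) (hqo : Odd q) (ha : 0 < a) (hj : jacobiSym q (L m) = -1) :
    ¬ IsSquare (L (m * q ^ a)) :=
  Pool.Agent.H28.PL.AllK.j_JJ L (Pool.Agent.H28.PL.pp_of u L h0 h1 h2 hL) m q a hm hc hp hq hqo ha
    hj

end Pool.Agent.Results.MP_cd3997_nt.Reciprocity
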