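import Pool.Agent.H28.PL.FinJ
import Pool.Agent.H28.PL.AllR
import Pool.Agent.H28.PL.Cat

/-!
# Primitive parts of the Pell numbers with an index of small radical (`MP_cd3997_nt`)
-/

set_option autoImplicit false

namespace Pool.Agent.Results.MP_cd3997_nt.SmallRadical

/-- `u` are the Pell numbers and `L` their primitive parts.  If the product of the primes
dividing `r` is at most `√(2 r)`, then `L r` is not a square. -/
theorem result (u L : ℕ → ℕ) (h0 : u 0 = 0) (h1 : u 1 = 1)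
    (h2 : ∀ r, u (r + 2) = 2 * u (r + 1) + u r)
    (hL : ∀ r, 0 < r → ∏ d ∈ r.divisors, L d = u r)
    (r : ℕ) (hr : 1 < r) (hrad : (∏ p ∈ r.primeFactors, p) ^ 2 ≤ 2 * r) :
    ¬ IsSquare (L r) :=
  Pool.Agent.H28.PL.AllR.r_R (Pool.Agent.H28.PL.pf_CAT Pool.Agent.H28.PL.pf_CAB) L
    (Pool.Agent.H28.PL.pp_of u L h0 h1 h2 hL) r hr hrad

end Pool.Agent.Results.MP_cd3997_nt.SmallRadical
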